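import Pool.Agent.V8H1.LT.ResDefs

/-!
# The product of two free resolutions of the trivial modules
-/

set_option autoImplicit false

open scoped Matrix

noncomputable section

namespace Pool.Agent.V8H63.LT

open Pool.Agent.V8H10.LT Pool.Agent.N496.LT Pool.Agent.V8H1.LT

section ring

variable {G H : Type} [Group G] [Group H]

/-- the inclusion of the first factor -/
def il (G H : Type) [Group G] [Group H] : MonoidAlgebra ℤ G →+* MonoidAlgebra ℤ (G × H) :=
  MonoidAlgebra.mapDomainRingHom ℤ (MonoidHom.inl G H)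

/-- the inclusion of the second factor -/
def ir (G H : Type) [Group G] [Group H] : MonoidAlgebra ℤ H →+* MonoidAlgebra ℤ (G × H) :=
  MonoidAlgebra.mapDomainRingHom ℤ (MonoidHom.inr G H)

/-- the projection to the second factor -/
def sn (G H : Type) [Group G] [Group H] : MonoidAlgebra ℤ (G × H) →+* MonoidAlgebra ℤ H :=
  MonoidAlgebra.mapDomainRingHom ℤ (MonoidHom.snd G H)

theorem il_single (g : G) (a : ℤ) : il G H (MonoidAlgebra.single g a) = MonoidAlgebra.single (g, 1) a := by
  unfold il; simp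

theorem ir_single (h : H) (a : ℤ) : ir G H (MonoidAlgebra.single h a) = MonoidAlgebra.single (1, h) a := by
  unfold ir; simp

theorem sn_single (p : G × H) (a : ℤ) : sn G H (MonoidAlgebra.single p a) = MonoidAlgebra.single p.2 a := by
  unfold sn; simp

/-- the augmentation as a ring homomorphism -/
def au (G : Type) [Group G] : MonoidAlgebra ℤ G →+* ℤ := (MonoidAlgebra.lift ℤ ℤ G 1).toRingHom

theorem aug_eq' (x : MonoidAlgebra ℤ G) : aug x = au G x := by
  show _ = MonoidAlgebra.lift ℤ ℤ G 1 x
  rw [MonoidAlgebra.lift_apply]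
  unfold aug
  refine Finsupp.sum_congr fun g _ => ?_
  simp

theorem au_single (g : G) (a : ℤ) : au G (MonoidAlgebra.single g a) = a := by
  show MonoidAlgebra.lift ℤ ℤ G 1 (MonoidAlgebra.single g a) = a
  rw [MonoidAlgebra.lift_single]
  simp

theorem sn_il (x : MonoidAlgebra ℤ G) : sn G H (il G H x) = MonoidAlgebra.single 1 (au G x) := by
  induction x using MonoidAlgebra.induction_linear with
  | zero => simp
  | add x y hx hy => rw [map_add, map_add, hx, hy, map_add, MonoidAlgebra.single_add]
  | single g a => rw [il_single, sn_single, au_single]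

theorem sn_ir (x : MonoidAlgebra ℤ H) : sn G H (ir G H x) = x := by
  induction x using MonoidAlgebra.induction_linear with
  | zero => simp
  | add x y hx hy => rw [map_add, map_add, hx, hy]
  | single g a => rw [ir_single, sn_single]

theorem au_il (x : MonoidAlgebra ℤ G) : au (G × H) (il G H x) = au G x := by
  induction x using MonoidAlgebra.induction_linear with
  | zero => simp
  | add x y hx hy => rw [map_add, map_add, hx, hy, map_add]
  | single g a => rw [il_single, au_single, au_single]

theorem au_ir (x : MonoidAlgebra ℤ H) : au (G × H) (ir G H x) = au H x := by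
  induction x using MonoidAlgebra.induction_linear with
  | zero => simp
  | add x y hx hy => rw [map_add, map_add, hx, hy, map_add]
  | single g a => rw [ir_single, au_single, au_single]

theorem au_sn (x : MonoidAlgebra ℤ (G × H)) : au H (sn G H x) = au (G × H) x := by
  induction x using MonoidAlgebra.induction_linear with
  | zero => simp
  | add x y hx hy => rw [map_add, map_add, hx, hy, map_add]
  | single g a => rw [sn_single, au_single, au_single]

/-- the group element `(1, h)` -/
def tm (G : Type) [Group G] (h : H) : MonoidAlgebra ℤ (G × H) := MonoidAlgebra.single (1, h) 1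

theorem tm_comm (h : H) (y : MonoidAlgebra ℤ G) : tm G h * il G H y = il G H y * tm G h := by
  induction y using MonoidAlgebra.induction_linear with
  | zero => simp
  | add x y hx hy => rw [map_add, mul_add, add_mul, hx, hy]
  | single g a =>
    rw [il_single]
    unfold tm
    rw [MonoidAlgebra.single_mul_single, MonoidAlgebra.single_mul_single]
    simp

open Classical in
/-- the part of `x` at `h` -/
def part (h : H) : MonoidAlgebra ℤ (G × H) →+ MonoidAlgebra ℤ G :=
  (Finsupp.liftAddHom fun p : G × H => if p.2 = h then MonoidAlgebra.singleAddHom p.1 else 0).comp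
    MonoidAlgebra.coeffAddEquiv.toAddMonoidHom

open Classical in
theorem part_single (h : H) (p : G × H) (a : ℤ) :
    part h (MonoidAlgebra.single p a) = if p.2 = h then MonoidAlgebra.single p.1 a else 0 := by
  have : part h (MonoidAlgebra.single p a) =
      (Finsupp.liftAddHom fun p : G × H => if p.2 = h then MonoidAlgebra.singleAddHom (R := ℤ) p.1 else 0)
        (Finsupp.single p a) := rfl
  rw [this, Finsupp.liftAddHom_apply_single]
  split_ifs <;> rfl

theorem part_mul (h : H) (x : MonoidAlgebra ℤ (G × H)) (y : MonoidAlgebra ℤ G) :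
    part h (x * il G H y) = part h x * y := by
  classical
  induction x using MonoidAlgebra.induction_linear with
  | zero => simp
  | add x1 x2 h1 h2 => rw [add_mul, map_add, h1, h2, map_add, add_mul]
  | single p a =>
    induction y using MonoidAlgebra.induction_linear with
    | zero => simp
    | add y1 y2 h1 h2 => rw [map_add, mul_add, map_add, h1, h2, mul_add]
    | single g b =>
      rw [il_single, MonoidAlgebra.single_mul_single, part_single, part_single]
      have : (p * (g, 1)).2 = p.2 := by simp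
      rw [this]
      split_ifs with h0
      · rw [MonoidAlgebra.single_mul_single]; rfl
      · rw [zero_mul]

theorem sum_part (x : MonoidAlgebra ℤ (G × H)) :
    ∃ S0 : Finset H, ∀ S : Finset H, S0 ⊆ S → x = ∑ h ∈ S, il G H (part h x) * tm G h := by
  classical
  induction x using MonoidAlgebra.induction_linear with
  | zero =>
    refine ⟨∅, fun S _ => ?_⟩
    rw [Finset.sum_eq_zero]
    intro h _
    rw [map_zero, map_zero, zero_mul]
  | add x y hx hy =>
    obtain ⟨S1, h1⟩ := hx
    obtain ⟨S2, h2⟩ := hy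
    refine ⟨S1 ∪ S2, fun S hS => ?_⟩
    have e1 := h1 S (Finset.subset_union_left.trans hS)
    have e2 := h2 S (Finset.subset_union_right.trans hS)
    have e3 : ∑ h ∈ S, il G H (part h (x + y)) * tm G h =
        ∑ h ∈ S, il G H (part h x) * tm G h + ∑ h ∈ S, il G H (part h y) * tm G h := by
      rw [← Finset.sum_add_distrib]
      refine Finset.sum_congr rfl fun h _ => ?_
      rw [map_add, map_add, add_mul]
    rw [e3, ← e1, ← e2]
  | single p a =>
    refine ⟨{p.2}, fun S hS => ?_⟩
    rw [Finset.sum_eq_single p.2]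
    · rw [part_single, if_pos rfl, il_single]
      unfold tm
      rw [MonoidAlgebra.single_mul_single]
      simp
    · intro h _ hne
      rw [part_single, if_neg (Ne.symm hne), map_zero, zero_mul]
    · intro h
      exact absurd (hS (Finset.mem_singleton_self _)) h

end ring

section chains

variable {G H : Type} [Group G] [Group H] (C : GCx G) (E : GCx H)

/-- the boundary in the first direction -/
def dC (z : C.ι × E.ι → MonoidAlgebra ℤ (G × H)) : C.ι × E.ι → MonoidAlgebra ℤ (G × H) :=
  fun p => ∑ i, z (i, p.2) * il G H (C.D i p.1)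

/-- the boundary in the second direction -/
def dE (z : C.ι × E.ι → MonoidAlgebra ℤ (G × H)) : C.ι × E.ι → MonoidAlgebra ℤ (G × H) :=
  fun p => ∑ k, z (p.1, k) * ((-1) ^ C.deg p.1 * ir G H (E.D k p.2))

theorem vecMul_pmat (z : C.ι × E.ι → MonoidAlgebra ℤ (G × H)) :
    z ᵥ* pmat C E = dC C E z + dE C E z := by
  funext p
  show ∑ x, z x * pmat C E x p = dC C E z p + dE C E z p
  rw [Fintype.sum_prod_type]
  unfold pmat dC dE il ir
  simp only [Matrix.of_apply, mul_add, Finset.sum_add_distrib, mul_ite, mul_zero]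
  congr 1
  · refine Finset.sum_congr rfl fun i _ => ?_
    rw [Finset.sum_ite_eq' Finset.univ p.2]
    simp
  · rw [Finset.sum_comm]
    refine Finset.sum_congr rfl fun k _ => ?_
    rw [Finset.sum_ite_eq' Finset.univ p.1]
    simp

/-- the chain `v` at the cell `k` and the group element `h` -/
def ij (k : E.ι) (h : H) (v : C.ι → MonoidAlgebra ℤ G) : C.ι × E.ι → MonoidAlgebra ℤ (G × H) :=
  fun p => if p.2 = k then il G H (v p.1) * tm G h else 0

/-- the part at `k` and `h` of a chain -/
def sl (k : E.ι) (h : H) (z : C.ι × E.ι → MonoidAlgebra ℤ (G × H)) : C.ι → MonoidAlgebra ℤ G :=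
  fun i => part h (z (i, k))

theorem sum_ij (z : C.ι × E.ι → MonoidAlgebra ℤ (G × H)) :
    ∃ S : Finset H, z = ∑ k, ∑ h ∈ S, ij C E k h (sl C E k h z) := by
  classical
  choose S0 hS0 using fun p => sum_part (z p)
  refine ⟨Finset.univ.biUnion S0, ?_⟩
  funext p
  rw [Finset.sum_apply, Finset.sum_eq_single p.2]
  · rw [Finset.sum_apply]
    have := hS0 p (Finset.univ.biUnion S0) (Finset.subset_biUnion_of_mem S0 (Finset.mem_univ p))
    refine this.trans (Finset.sum_congr rfl fun h _ => ?_)
    unfold ij sl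
    rw [if_pos rfl]
  · intro k _ hk
    rw [Finset.sum_apply]
    refine Finset.sum_eq_zero fun h _ => ?_
    unfold ij
    rw [if_neg (Ne.symm hk)]
  · intro h
    exact absurd (Finset.mem_univ _) h

theorem dC_ij (k : E.ι) (h : H) (v : C.ι → MonoidAlgebra ℤ G) :
    dC C E (ij C E k h v) = ij C E k h (v ᵥ* C.D) := by
  funext p
  unfold dC ij
  dsimp only
  split_ifs with h0
  · show _ = il G H (∑ i, v i * C.D i p.1) * tm G h
    rw [map_sum, Finset.sum_mul]
    refine Finset.sum_congr rfl fun i _ => ?_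
    rw [map_mul, mul_assoc, tm_comm, mul_assoc]
  · refine Finset.sum_eq_zero fun i _ => ?_
    rw [zero_mul]

theorem sl_dC (k : E.ι) (h : H) (z : C.ι × E.ι → MonoidAlgebra ℤ (G × H)) :
    sl C E k h (dC C E z) = sl C E k h z ᵥ* C.D := by
  funext i
  show part h (∑ i', z (i', k) * il G H (C.D i' i)) = ∑ i', part h (z (i', k)) * C.D i' i
  rw [map_sum]
  refine Finset.sum_congr rfl fun i' _ => ?_
  rw [part_mul]

/-- the augmentation in the first direction -/
def ep (z : C.ι × E.ι → MonoidAlgebra ℤ (G × H)) : E.ι → MonoidAlgebra ℤ H :=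
  fun k => ∑ i, if C.deg i = 0 then sn G H (z (i, k)) else 0

/-- the chain `y` at the cell `i0` -/
def Jm (i0 : C.ι) (y : E.ι → MonoidAlgebra ℤ H) : C.ι × E.ι → MonoidAlgebra ℤ (G × H) :=
  fun p => if p.1 = i0 then ir G H (y p.2) else 0

theorem ep_add (z z' : C.ι × E.ι → MonoidAlgebra ℤ (G × H)) :
    ep C E (z + z') = ep C E z + ep C E z' := by
  funext k
  show ep C E (z + z') k = ep C E z k + ep C E z' k
  unfold ep
  rw [← Finset.sum_add_distrib]
  refine Finset.sum_congr rfl fun i _ => ?_
  split_ifs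
  · rw [Pi.add_apply, map_add]
  · rw [add_zero]

theorem ep_zero : ep C E 0 = 0 := by
  funext k
  show ep C E 0 k = 0
  unfold ep
  refine Finset.sum_eq_zero fun i _ => ?_
  split_ifs
  · rw [Pi.zero_apply, map_zero]
  · rfl

theorem Jm_add (i0 : C.ι) (y y' : E.ι → MonoidAlgebra ℤ H) :
    Jm C E i0 (y + y') = Jm C E i0 y + Jm C E i0 y' := by
  funext p
  show Jm C E i0 (y + y') p = Jm C E i0 y p + Jm C E i0 y' p
  unfold Jm
  split_ifs
  · rw [Pi.add_apply, map_add]
  · rw [add_zero]

theorem Jm_zero (i0 : C.ι) : Jm C E i0 0 = 0 := by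
  funext p
  show Jm C E i0 0 p = 0
  unfold Jm
  split_ifs
  · rw [Pi.zero_apply, map_zero]
  · rfl

variable {C}

theorem D_zero (i i' : C.ι) (h : C.deg i ≠ C.deg i' + 1) : C.D i i' = 0 := by
  by_contra h0
  exact h (C.D_deg _ _ h0)

/-- the augmentation of a row -/
theorem row_aug (hC : IsRes C) (i : C.ι) : ∑ i', (if C.deg i' = 0 then au G (C.D i i') else 0) = 0 := by
  by_cases h1 : C.deg i = 1
  · have h2 : (fun i' => C.D i i') ∈ bdy C 0 := by
      apply AddSubgroup.subset_closure
      refine ⟨Pi.single i 1, ?_, ?_⟩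
      · intro i' hi'
        have : i' ≠ i := by
          rintro rfl
          exact hi' h1
        rw [Pi.single_eq_of_ne this]
      · funext i'
        show ∑ j, (Pi.single i 1 : C.ι → MonoidAlgebra ℤ G) j * C.D j i' = C.D i i'
        rw [Finset.sum_eq_single i]
        · rw [Pi.single_eq_same, one_mul]
        · intro j _ hj
          rw [Pi.single_eq_of_ne hj, zero_mul]
        · intro h
          exact absurd (Finset.mem_univ _) h
    have h3 : ∀ i', C.deg i' ≠ 0 → C.D i i' = 0 := by
      intro i' h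
      apply D_zero
      omega
    have h4 := (hC.2.1 (fun i' => C.D i i') h3).1 h2
    refine Eq.trans (Finset.sum_congr rfl fun i' _ => ?_) h4
    rw [aug_eq']
    split_ifs with h5
    · rfl
    · rw [h3 i' h5, map_zero]
  · refine Finset.sum_eq_zero fun i' _ => ?_
    split_ifs with h
    · rw [D_zero i i' (by omega), map_zero]
    · rfl

variable {E}

theorem ep_bd (hC : IsRes C) (z : C.ι × E.ι → MonoidAlgebra ℤ (G × H)) :
    ep C E (z ᵥ* pmat C E) = ep C E z ᵥ* E.D := by
  rw [vecMul_pmat, ep_add]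
  have h1 : ep C E (dC C E z) = 0 := by
    funext k
    show ∑ i', (if C.deg i' = 0 then sn G H (∑ i, z (i, k) * il G H (C.D i i')) else 0) = 0
    have e : ∀ i', (if C.deg i' = 0 then sn G H (∑ i, z (i, k) * il G H (C.D i i')) else 0) =
        ∑ i, sn G H (z (i, k)) * (if C.deg i' = 0 then MonoidAlgebra.single 1 (au G (C.D i i')) else 0) := by
      intro i'
      split_ifs with h
      · rw [map_sum]
        refine Finset.sum_congr rfl fun i _ => ?_
        rw [map_mul, sn_il]
      · simp
    rw [Finset.sum_congr rfl fun i' _ => e i', Finset.sum_comm]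
    refine Finset.sum_eq_zero fun i _ => ?_
    rw [← Finset.mul_sum]
    have e2 : ∑ i', (if C.deg i' = 0 then (MonoidAlgebra.single 1 (au G (C.D i i')) : MonoidAlgebra ℤ H) else 0) =
        MonoidAlgebra.single 1 (∑ i', if C.deg i' = 0 then au G (C.D i i') else 0) := by
      have : ∀ a : ℤ, (MonoidAlgebra.single 1 a : MonoidAlgebra ℤ H) = MonoidAlgebra.singleAddHom 1 a :=
        fun a => rfl
      rw [this, map_sum]
      refine Finset.sum_congr rfl fun i' _ => ?_
      split_ifs
      · rfl
      · rw [map_zero]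
    rw [e2, row_aug hC, MonoidAlgebra.single_zero, mul_zero]
  have h2 : ep C E (dE C E z) = ep C E z ᵥ* E.D := by
    funext k'
    show ∑ i, (if C.deg i = 0 then sn G H (∑ k, z (i, k) * ((-1) ^ C.deg i * ir G H (E.D k k'))) else 0) =
      ∑ k, (∑ i, if C.deg i = 0 then sn G H (z (i, k)) else 0) * E.D k k'
    have e : ∀ k, (∑ i, if C.deg i = 0 then sn G H (z (i, k)) else 0) * E.D k k' =
        ∑ i, if C.deg i = 0 then sn G H (z (i, k)) * E.D k k' else 0 := by
      intro k
      rw [Finset.sum_mul]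
      refine Finset.sum_congr rfl fun i _ => ?_
      split_ifs
      · rfl
      · rw [zero_mul]
    rw [Finset.sum_congr rfl fun k _ => e k, Finset.sum_comm]
    refine Finset.sum_congr rfl fun i _ => ?_
    split_ifs with h
    · rw [map_sum]
      refine Finset.sum_congr rfl fun k _ => ?_
      rw [h, pow_zero, one_mul, map_mul, sn_ir]
    · simp
  rw [h1, h2, zero_add]

theorem Jm_bd (i0 : C.ι) (hi0 : C.deg i0 = 0) (y : E.ι → MonoidAlgebra ℤ H) :
    Jm C E i0 y ᵥ* pmat C E = Jm C E i0 (y ᵥ* E.D) := by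
  rw [vecMul_pmat]
  have h1 : dC C E (Jm C E i0 y) = 0 := by
    funext p
    refine Finset.sum_eq_zero fun i _ => ?_
    unfold Jm
    dsimp only
    split_ifs with h
    · rw [h, D_zero i0 p.1 (by omega), map_zero, mul_zero]
    · rw [zero_mul]
  have h2 : dE C E (Jm C E i0 y) = Jm C E i0 (y ᵥ* E.D) := by
    funext p
    unfold Jm dE
    dsimp only
    split_ifs with h
    · show _ = ir G H (∑ k, y k * E.D k p.2)
      rw [map_sum]
      refine Finset.sum_congr rfl fun k _ => ?_
      rw [h, hi0, pow_zero, one_mul, map_mul]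
    · refine Finset.sum_eq_zero fun k _ => ?_
      rw [zero_mul]
  rw [h1, h2, zero_add]

variable (C E)

/-- the chains of degree `n` whose second degree is less than `q` -/
def Zq (n q : ℕ) : AddSubgroup (C.ι × E.ι → MonoidAlgebra ℤ (G × H)) where
  carrier := {z | ∀ p, z p ≠ 0 → C.deg p.1 + E.deg p.2 = n ∧ E.deg p.2 < q}
  add_mem' := by
    intro x y hx hy p hp
    by_cases h : x p = 0
    · apply hy p
      intro h'
      exact hp (by rw [Pi.add_apply, h, h', add_zero])
    · exact hx p h
  zero_mem' := fun p hp => absurd rfl hp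
  neg_mem' := by
    intro x hx p hp
    apply hx p
    intro h
    exact hp (by rw [Pi.neg_apply, h, neg_zero])

/-- the boundaries -/
def bdP (n : ℕ) : AddSubgroup (C.ι × E.ι → MonoidAlgebra ℤ (G × H)) where
  carrier := {z | ∃ u : C.ι × E.ι → MonoidAlgebra ℤ (G × H),
    (∀ p, C.deg p.1 + E.deg p.2 ≠ n + 1 → u p = 0) ∧ u ᵥ* pmat C E = z}
  add_mem' := by
    rintro _ _ ⟨v, h1, rfl⟩ ⟨w, h3, rfl⟩
    exact ⟨v + w, fun i hi => by simp [h1 i hi, h3 i hi], Matrix.add_vecMul _ _ _⟩
  zero_mem' := ⟨0, fun i _ => rfl, Matrix.zero_vecMul _⟩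
  neg_mem' := by
    rintro _ ⟨v, h1, rfl⟩
    exact ⟨-v, fun i hi => by simp [h1 i hi], Matrix.neg_vecMul _ _⟩

variable {C E}

theorem dE_ne {z : C.ι × E.ι → MonoidAlgebra ℤ (G × H)} {p : C.ι × E.ι} (h : dE C E z p ≠ 0) :
    ∃ k, z (p.1, k) ≠ 0 ∧ E.deg k = E.deg p.2 + 1 := by
  unfold dE at h
  obtain ⟨k, _, hk⟩ := Finset.exists_ne_zero_of_sum_ne_zero h
  refine ⟨k, ?_, ?_⟩
  · intro h0
    exact hk (by rw [h0, zero_mul])
  · by_contra h0
    exact hk (by rw [D_zero k p.2 h0, map_zero, mul_zero, mul_zero])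

theorem ij_ne {k : E.ι} {h : H} {v : C.ι → MonoidAlgebra ℤ G} {p : C.ι × E.ι} (h0 : ij C E k h v p ≠ 0) :
    p.2 = k ∧ v p.1 ≠ 0 := by
  unfold ij at h0
  split_ifs at h0 with h1
  · refine ⟨h1, fun h2 => h0 (by rw [h2, map_zero, zero_mul])⟩
  · exact absurd rfl h0

/-- filling a boundary in the first direction -/
theorem ij_bd (k : E.ι) (h : H) (u : C.ι → MonoidAlgebra ℤ G) (p n : ℕ) (hp : p + E.deg k = n)
    (hu : ∀ i, C.deg i ≠ p + 1 → u i = 0) : ij C E k h (u ᵥ* C.D) ∈ bdP C E n ⊔ Zq C E n (E.deg k) := by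
  rw [AddSubgroup.mem_sup]
  refine ⟨ij C E k h u ᵥ* pmat C E, ⟨ij C E k h u, ?_, rfl⟩, -dE C E (ij C E k h u), ?_, ?_⟩
  · intro x hx
    by_contra h0
    obtain ⟨h1, h2⟩ := ij_ne h0
    have h3 : C.deg x.1 = p + 1 := by
      by_contra h3
      exact h2 (hu _ h3)
    apply hx
    rw [h3, h1]
    omega
  · apply AddSubgroup.neg_mem
    intro x hx
    obtain ⟨k', h1, h2⟩ := dE_ne hx
    obtain ⟨h3, h4⟩ := ij_ne h1
    have h5 : C.deg x.1 = p + 1 := by
      by_contra h5
      exact h4 (hu _ h5)
    have h6 : k' = k := h3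
    rw [h6] at h2
    constructor <;> omega
  · rw [vecMul_pmat, dC_ij]
    abel

theorem step (hC : IsRes C) (n q : ℕ) (hq : q < n) (z : C.ι × E.ι → MonoidAlgebra ℤ (G × H))
    (hz : z ∈ Zq C E n (q + 1)) (hb : z ᵥ* pmat C E = 0) : z ∈ bdP C E n ⊔ Zq C E n q := by
  obtain ⟨S, hS⟩ := sum_ij C E z
  rw [hS]
  refine AddSubgroup.sum_mem _ fun k _ => AddSubgroup.sum_mem _ fun h _ => ?_
  have hv : ∀ i, sl C E k h z i ≠ 0 → C.deg i + E.deg k = n ∧ E.deg k < q + 1 := by
    intro i hi
    apply hz (i, k)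
    intro h0
    apply hi
    show part h (z (i, k)) = 0
    rw [h0, map_zero]
  by_cases hk : E.deg k = q
  · have h1 : sl C E k h z ∈ cyc C (n - q) := by
      apply AddSubgroup.subset_closure
      constructor
      · intro i hi
        by_contra h0
        have := hv i h0
        omega
      · rw [← sl_dC]
        funext i
        show part h (dC C E z (i, k)) = 0
        have e1 : dC C E z (i, k) + dE C E z (i, k) = 0 := by
          have := congrFun hb (i, k)
          rw [vecMul_pmat] at this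
          exact this
        have e2 : dE C E z (i, k) = 0 := by
          by_contra h0
          obtain ⟨k', h1, h2⟩ := dE_ne h0
          have := (hz (i, k') h1).2
          simp only at this h2
          omega
        rw [e2, add_zero] at e1
        rw [e1, map_zero]
    rw [hC.2.2 (n - q) (by omega)] at h1
    have h2 : ∃ u : C.ι → MonoidAlgebra ℤ G, (∀ i, C.deg i ≠ n - q + 1 → u i = 0) ∧
        u ᵥ* C.D = sl C E k h z := by
      have e : bdy C (n - q) = (C.bdy (n - q)).toAddSubgroup := AddSubgroup.closure_eq (C.bdy (n - q)).toAddSubgroup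
      rw [e] at h1
      exact h1
    obtain ⟨u, hu1, hu2⟩ := h2
    rw [← hu2]
    have := ij_bd (E := E) k h u (n - q) n (by omega) hu1
    rw [hk] at this
    exact this
  · apply AddSubgroup.mem_sup_right
    intro p hp
    obtain ⟨h1, h2⟩ := ij_ne hp
    have := hv _ h2
    rw [h1]
    constructor <;> omega

theorem first (hC : IsRes C) (i0 : C.ι) (hi0 : C.deg i0 = 0) (n : ℕ)
    (z : C.ι × E.ι → MonoidAlgebra ℤ (G × H)) (hz : z ∈ Zq C E n (n + 1)) :
    z - Jm C E i0 (ep C E z) ∈ bdP C E n ⊔ Zq C E n n := by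
  obtain ⟨S, hS⟩ := sum_ij C E z
  have hadd : ∀ a b : C.ι × E.ι → MonoidAlgebra ℤ (G × H),
      a - Jm C E i0 (ep C E a) ∈ bdP C E n ⊔ Zq C E n n →
      b - Jm C E i0 (ep C E b) ∈ bdP C E n ⊔ Zq C E n n →
      (a + b) - Jm C E i0 (ep C E (a + b)) ∈ bdP C E n ⊔ Zq C E n n := by
    intro a b ha hb
    have : (a + b) - Jm C E i0 (ep C E (a + b)) =
        (a - Jm C E i0 (ep C E a)) + (b - Jm C E i0 (ep C E b)) := by
      rw [ep_add, Jm_add]; abel
    rw [this]
    exact AddSubgroup.add_mem _ ha hb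
  have hzero : (0 : C.ι × E.ι → MonoidAlgebra ℤ (G × H)) - Jm C E i0 (ep C E 0) ∈
      bdP C E n ⊔ Zq C E n n := by
    rw [ep_zero, Jm_zero, sub_zero]
    exact AddSubgroup.zero_mem _
  rw [hS]
  refine Finset.sum_induction _ (fun z => z - Jm C E i0 (ep C E z) ∈ bdP C E n ⊔ Zq C E n n) hadd hzero
    fun k _ => Finset.sum_induction _ (fun z => z - Jm C E i0 (ep C E z) ∈ bdP C E n ⊔ Zq C E n n) hadd
      hzero fun h _ => ?_
  have hv : ∀ i, sl C E k h z i ≠ 0 → C.deg i + E.deg k = n ∧ E.deg k < n + 1 := by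
    intro i hi
    apply hz (i, k)
    intro h0
    apply hi
    show part h (z (i, k)) = 0
    rw [h0, map_zero]
  generalize sl C E k h z = v at hv
  by_cases hk : E.deg k = n
  · have hv0 : ∀ i, C.deg i ≠ 0 → v i = 0 := by
      intro i hi
      by_contra h0
      have := hv i h0
      omega
    set a : ℤ := ∑ i, au G (v i) with ha
    set w : C.ι → MonoidAlgebra ℤ G := v - Pi.single i0 (MonoidAlgebra.single 1 a) with hw
    have hw0 : ∀ i, C.deg i ≠ 0 → w i = 0 := by
      intro i hi
      have : i ≠ i0 := by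
        rintro rfl
        exact hi hi0
      rw [hw, Pi.sub_apply, hv0 i hi, Pi.single_eq_of_ne this, sub_zero]
    have hw1 : ∑ i, aug (w i) = 0 := by
      have e : ∀ i, aug (w i) = au G (v i) - (Pi.single i0 a : C.ι → ℤ) i := by
        intro i
        rw [aug_eq', hw, Pi.sub_apply, map_sub]
        congr 1
        by_cases h0 : i = i0
        · rw [h0, Pi.single_eq_same, Pi.single_eq_same, au_single]
        · rw [Pi.single_eq_of_ne h0, Pi.single_eq_of_ne h0, map_zero]
      rw [Finset.sum_congr rfl fun i _ => e i, Finset.sum_sub_distrib, ← ha]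
      rw [Finset.sum_pi_single' i0 a Finset.univ, if_pos (Finset.mem_univ _), sub_self]
    have hw2 := (hC.2.1 w hw0).2 hw1
    have h2 : ∃ u : C.ι → MonoidAlgebra ℤ G, (∀ i, C.deg i ≠ 0 + 1 → u i = 0) ∧ u ᵥ* C.D = w := by
      have e : bdy C 0 = (C.bdy 0).toAddSubgroup := AddSubgroup.closure_eq (C.bdy 0).toAddSubgroup
      rw [e] at hw2
      exact hw2
    obtain ⟨u, hu1, hu2⟩ := h2
    have h3 := ij_bd (E := E) k h u 0 n (by omega) hu1
    rw [hu2, hk] at h3
    have h4 : ij C E k h v - Jm C E i0 (ep C E (ij C E k h v)) = ij C E k h w := by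
      funext p
      rw [Pi.sub_apply]
      have e1 : ep C E (ij C E k h v) p.2 = if p.2 = k then MonoidAlgebra.single h a else 0 := by
        unfold ep ij
        dsimp only
        split_ifs with h0
        · have e2 : ∀ i, (if C.deg i = 0 then sn G H (il G H (v i) * tm G h) else 0) =
              MonoidAlgebra.singleAddHom h (au G (v i)) := by
            intro i
            split_ifs with h5
            · rw [map_mul, sn_il]
              unfold tm
              rw [sn_single, MonoidAlgebra.single_mul_single, one_mul, mul_one]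
              rfl
            · rw [hv0 i h5, map_zero, map_zero]
          rw [Finset.sum_congr rfl fun i _ => e2 i, ← map_sum]
          rfl
        · refine Finset.sum_eq_zero fun i _ => ?_
          split_ifs
          · rw [map_zero]
          · rfl
      have e3 : Jm C E i0 (ep C E (ij C E k h v)) p =
          if p.1 = i0 then ir G H (ep C E (ij C E k h v) p.2) else 0 := rfl
      rw [e3, e1]
      unfold ij
      by_cases h5 : p.2 = k
      · rw [if_pos h5, if_pos h5, if_pos h5, hw, Pi.sub_apply, map_sub, sub_mul]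
        congr 1
        by_cases h6 : p.1 = i0
        · rw [if_pos h6, h6, Pi.single_eq_same, ir_single, il_single]
          unfold tm
          rw [MonoidAlgebra.single_mul_single]
          simp
        · rw [if_neg h6, Pi.single_eq_of_ne h6, map_zero, zero_mul]
      · rw [if_neg h5, if_neg h5, if_neg h5, map_zero]
        simp
    rw [h4]
    exact h3
  · apply AddSubgroup.mem_sup_right
    have e1 : ep C E (ij C E k h v) = 0 := by
      funext k'
      refine Finset.sum_eq_zero fun i _ => ?_
      split_ifs with h5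
      · by_cases h6 : ij C E k h v (i, k') = 0
        · rw [h6, map_zero]
        · exfalso
          obtain ⟨h7, h8⟩ := ij_ne h6
          have := hv i h8
          omega
      · rfl
    rw [e1, Jm_zero, sub_zero]
    intro p hp
    obtain ⟨h1, h2⟩ := ij_ne hp
    have := hv _ h2
    rw [h1]
    constructor <;> omega

theorem bdP_cyc {n : ℕ} {b : C.ι × E.ι → MonoidAlgebra ℤ (G × H)} (hb : b ∈ bdP C E n) :
    b ᵥ* pmat C E = 0 := by
  obtain ⟨u, _, rfl⟩ := hb
  rw [Matrix.vecMul_vecMul, pmat_sq, Matrix.vecMul_zero]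

theorem down (hC : IsRes C) (n : ℕ) : ∀ q, q ≤ n → ∀ z ∈ Zq C E n q, z ᵥ* pmat C E = 0 → z ∈ bdP C E n := by
  intro q
  induction q with
  | zero =>
    intro _ z hz _
    have : z = 0 := by
      funext p
      by_contra h
      exact absurd (hz p h).2 (Nat.not_lt_zero _)
    rw [this]
    exact AddSubgroup.zero_mem _
  | succ q ih =>
    intro hq z hz hb
    obtain ⟨b, h1, z', h2, rfl⟩ := AddSubgroup.mem_sup.1 (step hC n q hq z hz hb)
    refine AddSubgroup.add_mem _ h1 (ih (by omega) z' h2 ?_)
    rw [Matrix.add_vecMul, bdP_cyc h1, zero_add] at hb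
    exact hb

theorem JB (hC : IsRes C) (i0 : C.ι) (hi0 : C.deg i0 = 0) (n : ℕ) (y : E.ι → MonoidAlgebra ℤ H)
    (hy : y ∈ bdy E n) : Jm C E i0 y ∈ bdP C E n := by
  have e : bdy E n = (E.bdy n).toAddSubgroup := AddSubgroup.closure_eq (E.bdy n).toAddSubgroup
  rw [e] at hy
  obtain ⟨u, hu1, rfl⟩ := hy
  refine ⟨Jm C E i0 u, ?_, Jm_bd i0 hi0 u⟩
  intro p hp
  unfold Jm
  split_ifs with h
  · rw [hu1 p.2 (by rw [h, hi0] at hp; omega), map_zero]
  · rfl

theorem AE (z : C.ι × E.ι → MonoidAlgebra ℤ (G × H)) (hz : ∀ p, C.deg p.1 + E.deg p.2 ≠ 0 → z p = 0) :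
    ∑ k, aug (ep C E z k) = ∑ p, aug (z p) := by
  rw [Fintype.sum_prod_type, Finset.sum_comm]
  refine Finset.sum_congr rfl fun k _ => ?_
  rw [aug_eq']
  unfold ep
  rw [map_sum]
  refine Finset.sum_congr rfl fun i _ => ?_
  rw [aug_eq']
  split_ifs with h
  · rw [au_sn]
  · rw [hz (i, k) (by simp only; omega), map_zero, map_zero]

theorem ep_deg (z : C.ι × E.ι → MonoidAlgebra ℤ (G × H)) (n : ℕ)
    (hz : ∀ p, C.deg p.1 + E.deg p.2 ≠ n → z p = 0) (k : E.ι) (hk : E.deg k ≠ n) : ep C E z k = 0 := by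
  refine Finset.sum_eq_zero fun i _ => ?_
  split_ifs with h2
  · rw [hz (i, k) (by simp only; omega), map_zero]
  · rfl

theorem mem_Zq (z : C.ι × E.ι → MonoidAlgebra ℤ (G × H)) (n : ℕ)
    (hz : ∀ p, C.deg p.1 + E.deg p.2 ≠ n → z p = 0) : z ∈ Zq C E n (n + 1) := by
  intro p hp
  have : C.deg p.1 + E.deg p.2 = n := by
    by_contra h0
    exact hp (hz p h0)
  constructor <;> omega

theorem prod_zero (hC : IsRes C) (hE : IsRes E) (v : C.ι × E.ι → MonoidAlgebra ℤ (G × H))
    (hv : ∀ p, C.deg p.1 + E.deg p.2 ≠ 0 → v p = 0) : v ∈ bdP C E 0 ↔ ∑ p, aug (v p) = 0 := by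
  obtain ⟨i0, hi0⟩ := hC.1
  rw [← AE v hv]
  constructor
  · rintro ⟨u, hu1, hu2⟩
    have h0 : ∀ k, E.deg k ≠ 0 → (ep C E u ᵥ* E.D) k = 0 := by
      intro k hk
      rw [← ep_bd hC, hu2]
      exact ep_deg v 0 hv k hk
    rw [← hu2, ep_bd hC]
    refine (hE.2.1 _ h0).1 ?_
    apply AddSubgroup.subset_closure
    exact ⟨ep C E u, fun k hk => ep_deg u (0 + 1) hu1 k hk, rfl⟩
  · intro h1
    have h2 := first hC i0 hi0 0 v (mem_Zq v 0 hv)
    have h3 : Jm C E i0 (ep C E v) ∈ bdP C E 0 :=
      JB hC i0 hi0 0 _ ((hE.2.1 _ (ep_deg v 0 hv)).2 h1)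
    obtain ⟨b, h4, z', h5, h6⟩ := AddSubgroup.mem_sup.1 h2
    have h7 : z' = 0 := by
      funext p
      by_contra h
      exact absurd (h5 p h).2 (Nat.not_lt_zero _)
    rw [h7, add_zero] at h6
    have : v = b + Jm C E i0 (ep C E v) := by rw [h6]; abel
    rw [this]
    exact AddSubgroup.add_mem _ h4 h3

theorem prod_cyc (hC : IsRes C) (hE : IsRes E) (n : ℕ) (hn : 1 ≤ n)
    (z : C.ι × E.ι → MonoidAlgebra ℤ (G × H)) (hz1 : ∀ p, C.deg p.1 + E.deg p.2 ≠ n → z p = 0)
    (hz2 : z ᵥ* pmat C E = 0) : z ∈ bdP C E n := by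
  obtain ⟨i0, hi0⟩ := hC.1
  have h2 := first hC i0 hi0 n z (mem_Zq z n hz1)
  have h3 : Jm C E i0 (ep C E z) ∈ bdP C E n := by
    apply JB hC i0 hi0
    rw [← hE.2.2 n hn]
    apply AddSubgroup.subset_closure
    refine ⟨ep_deg z n hz1, ?_⟩
    rw [← ep_bd hC, hz2, ep_zero]
  obtain ⟨b, h4, z', h5, h6⟩ := AddSubgroup.mem_sup.1 h2
  have h7 : z = b + Jm C E i0 (ep C E z) + z' := by
    have : b + Jm C E i0 (ep C E z) + z' = (b + z') + Jm C E i0 (ep C E z) := by abel
    rw [this, h6]; abel
  have h8 : b + Jm C E i0 (ep C E z) ∈ bdP C E n := AddSubgroup.add_mem _ h4 h3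
  have h9 : z' ᵥ* pmat C E = 0 := by
    rw [h7, Matrix.add_vecMul, bdP_cyc h8, zero_add] at hz2
    exact hz2
  rw [h7]
  exact AddSubgroup.add_mem _ h8 (down hC n n le_rfl z' h5 h9)

variable (C E) in
/-- The product of two free resolutions is a free resolution. -/
theorem prod_isRes (hC : IsRes C) (hE : IsRes E) : IsRes (Pool.Agent.V8H10.LT.prod C E) := by
  obtain ⟨i0, hi0⟩ := hC.1
  obtain ⟨k0, hk0⟩ := hE.1
  have eb : ∀ n, bdy (Pool.Agent.V8H10.LT.prod C E) n = bdP C E n := by
    intro n
    exact AddSubgroup.closure_eq (bdP C E n)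
  refine ⟨⟨(i0, k0), ?_⟩, ?_, ?_⟩
  · show C.deg i0 + E.deg k0 = 0
    rw [hi0, hk0]
  · intro v hv
    rw [eb]
    exact prod_zero hC hE v hv
  · intro n hn
    rw [eb]
    apply le_antisymm
    · unfold cyc
      rw [AddSubgroup.closure_le]
      rintro z ⟨hz1, hz2⟩
      exact prod_cyc hC hE n hn z hz1 hz2
    · rintro z ⟨u, hu, rfl⟩
      apply AddSubgroup.subset_closure
      refine ⟨?_, ?_⟩
      · intro p hp
        refine Finset.sum_eq_zero fun x _ => ?_
        by_cases hx : C.deg x.1 + E.deg x.2 = n + 1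
        · have : pmat C E x p = 0 := by
            by_contra h
            have h1 := pmat_deg C E x p h
            have h2 : C.deg p.1 + E.deg p.2 ≠ n := hp
            omega
          show u x * pmat C E x p = 0
          rw [this, mul_zero]
        · show u x * pmat C E x p = 0
          rw [hu x hx, zero_mul]
      · show (u ᵥ* pmat C E) ᵥ* pmat C E = 0
        rw [Matrix.vecMul_vecMul, pmat_sq, Matrix.vecMul_zero]

end chains

end Pool.Agent.V8H63.LT
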